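import Pool.Agent.H66.NS.Brn

/-!
# THEOREM NC, Julia set = sphere: orbits near a point of the plane (copy of H3/NC/PRL)

The orbit of `x0` may reach infinity; periodicity is stated with `rat a b`, and the neighbouring points have orbits without poles.
`kap`: a constant of the cycle of `x0`.
-/

set_option autoImplicit false

open Filter Topology Polynomial Metric Set MeasureTheory

namespace Pool.Agent.H66.NS

open Pool.Agent.H44.Fatou (rat)
open Pool.Agent.H80.AJ (Br KK)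
open Pool.Agent.H61.TT Pool.Agent.H57.CP Pool.Agent.H3.NC Pool.Agent.H78.NS

variable {d : ℕ} {a b : Polynomial ℂ} {L0 θ : ℝ}

theorem cont_itb {x0 : ℂ} {q : ℕ} (hb : ∀ i < q, b.eval ((gg a b)^[i] x0) ≠ 0) :
    HasStrictDerivAt (gg a b)^[q] (tD a b q x0) x0 ∧ ContinuousAt (fun z => tD a b q z) x0 := by
  refine ⟨bra_it fun i hi => hb i hi, ?_⟩
  unfold tD
  refine tendsto_finsetProd _ fun i hi => ?_
  have hi' : i < q := Finset.mem_range.1 hi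
  have h1 : ContinuousAt (gg a b)^[i] x0 :=
    (bra_it (a := a) (n := i) fun j hj => hb j (by omega)).hasDerivAt.continuousAt
  have h2 : ContinuousAt (Pool.Agent.H61.TT.dg a b) ((gg a b)^[i] x0) :=
    (differentiableAt_dg (hb i hi')).continuousAt
  exact h2.tendsto.comp h1.tendsto

theorem cont_it (h : SP d a b L0 θ) {x0 u : ℂ} {q : ℕ} (hq : (rat a b)^[q] (x0 : OnePoint ℂ) = (u : OnePoint ℂ)) :
    HasStrictDerivAt (gg a b)^[q] (tD a b q x0) x0 ∧ ContinuousAt (fun z => tD a b q z) x0 :=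
  cont_itb (bdo h hq).2.2

theorem rat_it_cont (h : SP d a b L0 θ) (q : ℕ) : Continuous (rat a b)^[q] :=
  (Pool.Agent.H44.Fatou.rat_continuous h.rt.cop).iterate q

theorem np1 (h : SP d a b L0 θ) {x0 : ℂ} {q : ℕ} (hq : (rat a b)^[q] (x0 : OnePoint ℂ) ≠ (x0 : OnePoint ℂ)) :
    ∃ ε : ℝ, 0 < ε ∧ ∀ z : ℂ, (∀ i < q, b.eval ((gg a b)^[i] z) ≠ 0) → ‖z - x0‖ < ε →
      ε ≤ ‖(gg a b)^[q] z - x0‖ := by
  by_contra hcon
  push Not at hcon
  have h1 : ∀ k : ℕ, ∃ z : ℂ, (∀ i < q, b.eval ((gg a b)^[i] z) ≠ 0) ∧ ‖z - x0‖ < 1 / ((k:ℝ) + 1) ∧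
      ‖(gg a b)^[q] z - x0‖ < 1 / ((k:ℝ) + 1) := by
    intro k
    obtain ⟨z, hz1, hz2, hz3⟩ := hcon (1 / ((k:ℝ) + 1)) (by positivity)
    exact ⟨z, hz1, hz2, hz3⟩
  choose z hz1 hz2 hz3 using h1
  have hlim0 := tendsto_one_div_add_atTop_nhds_zero_nat (𝕜 := ℝ)
  have e1 : Tendsto z atTop (𝓝 x0) := by
    rw [tendsto_iff_norm_sub_tendsto_zero]
    exact squeeze_zero (fun k => norm_nonneg _) (fun k => (hz2 k).le) hlim0
  have e2 : Tendsto (fun k => (gg a b)^[q] (z k)) atTop (𝓝 x0) := by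
    rw [tendsto_iff_norm_sub_tendsto_zero]
    exact squeeze_zero (fun k => norm_nonneg _) (fun k => (hz3 k).le) hlim0
  have e3 : Tendsto (fun k => (rat a b)^[q] (z k : OnePoint ℂ)) atTop (𝓝 ((rat a b)^[q] (x0 : OnePoint ℂ))) :=
    ((rat_it_cont h q).tendsto _).comp ((OnePoint.continuous_coe.tendsto x0).comp e1)
  have e4 : Tendsto (fun k => (rat a b)^[q] (z k : OnePoint ℂ)) atTop (𝓝 (x0 : OnePoint ℂ)) := by
    have : (fun k => (rat a b)^[q] (z k : OnePoint ℂ)) = fun k => (((gg a b)^[q] (z k) : ℂ) : OnePoint ℂ) := by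
      funext k
      exact orb_fin (hz1 k)
    rw [this]
    exact (OnePoint.continuous_coe.tendsto x0).comp e2
  exact hq (tendsto_nhds_unique e3 e4)

theorem rp1 (h : SP d a b L0 θ) (x0 : ℂ) {q : ℕ} (hq : 0 < q) : ∃ ε : ℝ, 0 < ε ∧
    ∀ z : ℂ, (∀ i < q, b.eval ((gg a b)^[i] z) ≠ 0) → ‖z - x0‖ < ε → ‖(gg a b)^[q] z - x0‖ < ε →
      1 < ‖tD a b q z‖ := by
  by_cases hp : (rat a b)^[q] (x0 : OnePoint ℂ) = (x0 : OnePoint ℂ)
  · have h1 := h.rep x0 q hq hp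
    have hc : ContinuousAt (fun z => ‖tD a b q z‖) x0 := (cont_it h hp).2.norm
    have h2 : ∀ᶠ z in 𝓝 x0, 1 < ‖tD a b q z‖ := hc.eventually (lt_mem_nhds h1)
    obtain ⟨ε, hε, h3⟩ := Metric.eventually_nhds_iff.1 h2
    refine ⟨ε, hε, fun z _ hz _ => h3 ?_⟩
    rw [dist_eq_norm]
    exact hz
  · obtain ⟨ε, hε, h1⟩ := np1 h hp
    exact ⟨ε, hε, fun z hb hz hz2 => absurd hz2 (not_lt.2 (h1 z hb hz))⟩

/-- the cycle of a periodic point of the plane -/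
theorem per_dat (h : SP d a b L0 θ) {x0 : ℂ}
    (hp : ∃ p : ℕ, 0 < p ∧ (rat a b)^[p] (x0 : OnePoint ℂ) = (x0 : OnePoint ℂ)) :
    ∃ p0 : ℕ, 0 < p0 ∧ 1 < ‖tD a b p0 x0‖ ∧ (∀ j, (rat a b)^[p0 * j] (x0 : OnePoint ℂ) = (x0 : OnePoint ℂ) ∧
      tD a b (p0 * j) x0 = tD a b p0 x0 ^ j) ∧
      ∀ t, (rat a b)^[t] (x0 : OnePoint ℂ) = (x0 : OnePoint ℂ) → ∃ j, t = p0 * j := by
  obtain ⟨p, hp0, hp1⟩ := hp
  have hper : (x0 : OnePoint ℂ) ∈ Function.periodicPts (rat a b) := ⟨p, hp0, hp1⟩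
  have h1 := Function.minimalPeriod_pos_of_mem_periodicPts hper
  have h2 : (rat a b)^[Function.minimalPeriod (rat a b) (x0 : OnePoint ℂ)] (x0 : OnePoint ℂ) = x0 :=
    Function.iterate_minimalPeriod
  refine ⟨Function.minimalPeriod (rat a b) (x0 : OnePoint ℂ), h1, h.rep x0 _ h1 h2, fun j => ?_, fun t ht => ?_⟩
  · induction j with
    | zero => simp [tD]
    | succ j ih =>
      refine ⟨?_, ?_⟩
      · rw [Nat.mul_succ, Function.iterate_add_apply, h2, ih.1]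
      · rw [Nat.mul_succ, tD_add, (bdo h ih.1).1, ih.2, pow_succ]
  · have h3 : Function.IsPeriodicPt (rat a b) t (x0 : OnePoint ℂ) := ht
    exact h3.minimalPeriod_dvd

/-- a constant of the cycle of `x0` -/
theorem kap (h : SP d a b L0 θ) (x0 : ℂ) : ∃ κ : ℝ, Kap a b x0 κ := by
  by_cases hp : ∃ p : ℕ, 0 < p ∧ (rat a b)^[p] (x0 : OnePoint ℂ) = (x0 : OnePoint ℂ)
  · obtain ⟨p0, hp0, hμ, hj, ht⟩ := per_dat h hp
    set μ := tD a b p0 x0 with hμdef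
    refine ⟨(‖μ‖ - 1) / 2, by linarith, fun q hq hq2 => ?_⟩
    obtain ⟨j, rfl⟩ := ht q hq2
    have hj1 : 1 ≤ j := by
      rcases Nat.eq_zero_or_pos j with h0 | h0
      · subst h0
        simp at hq
      · exact h0
    have h1 : ‖μ‖ ≤ ‖tD a b (p0 * j) x0‖ := by
      rw [(hj j).2, norm_pow]
      exact le_self_pow₀ hμ.le (by omega)
    have h2 := (cont_it h hq2).1.hasDerivAt
    rw [hasDerivAt_iff_isLittleO] at h2
    have h3 := h2.def (c := (‖μ‖ - 1) / 2) (by linarith)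
    obtain ⟨ε, hε, h4⟩ := Metric.eventually_nhds_iff.1 h3
    refine ⟨ε, hε, fun z hz => ?_⟩
    have h5 := h4 (y := z) (by rw [dist_eq_norm]; exact hz)
    rw [(bdo h hq2).1, smul_eq_mul] at h5
    have h6 : ‖(z - x0) * tD a b (p0 * j) x0‖ ≤ ‖(gg a b)^[p0 * j] z - x0‖ +
        ‖(gg a b)^[p0 * j] z - x0 - (z - x0) * tD a b (p0 * j) x0‖ := by
      have e : (z - x0) * tD a b (p0 * j) x0 = ((gg a b)^[p0 * j] z - x0) -
        ((gg a b)^[p0 * j] z - x0 - (z - x0) * tD a b (p0 * j) x0) := by ring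
      calc ‖(z - x0) * tD a b (p0 * j) x0‖ = ‖((gg a b)^[p0 * j] z - x0) -
        ((gg a b)^[p0 * j] z - x0 - (z - x0) * tD a b (p0 * j) x0)‖ := by rw [← e]
        _ ≤ _ := norm_sub_le _ _
    rw [norm_mul] at h6
    have h7 : ‖z - x0‖ * ‖μ‖ ≤ ‖z - x0‖ * ‖tD a b (p0 * j) x0‖ :=
      mul_le_mul_of_nonneg_left h1 (norm_nonneg _)
    nlinarith
  · exact ⟨1, one_pos, fun q hq hq2 => absurd ⟨q, hq, hq2⟩ hp⟩

open Classical in
theorem geo (h : SP d a b L0 θ) {x0 : ℂ}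
    (hp : ∃ p : ℕ, 0 < p ∧ (rat a b)^[p] (x0 : OnePoint ℂ) = (x0 : OnePoint ℂ)) :
    (Summable fun t : ℕ => ‖if (rat a b)^[t] (x0 : OnePoint ℂ) = (x0 : OnePoint ℂ) then (tD a b t x0)⁻¹ else 0‖) ∧
      ∑' t : ℕ, (if (rat a b)^[t] (x0 : OnePoint ℂ) = (x0 : OnePoint ℂ) then (tD a b t x0)⁻¹ else 0) ≠ 0 := by
  obtain ⟨p0, hp0, hμ, hj, ht⟩ := per_dat h hp
  set μ := tD a b p0 x0 with hμdef
  have hinj : Function.Injective fun j : ℕ => p0 * j := fun i j hij => Nat.eq_of_mul_eq_mul_left hp0 hij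
  have hout : ∀ t, t ∉ Set.range (fun j : ℕ => p0 * j) →
      ¬ (rat a b)^[t] (x0 : OnePoint ℂ) = (x0 : OnePoint ℂ) := by
    intro t ht2 ht3
    obtain ⟨j, hj⟩ := ht t ht3
    exact ht2 ⟨j, hj.symm⟩
  have hμ1 : ‖μ⁻¹‖ < 1 := by
    rw [norm_inv]
    exact inv_lt_one_of_one_lt₀ hμ
  constructor
  · rw [← hinj.summable_iff]
    · have e : ((fun t : ℕ => ‖if (rat a b)^[t] (x0 : OnePoint ℂ) = (x0 : OnePoint ℂ) then (tD a b t x0)⁻¹ else 0‖) ∘
          fun j : ℕ => p0 * j) = fun j => ‖μ⁻¹‖ ^ j := by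
        funext j
        rw [Function.comp_apply, if_pos (hj j).1, (hj j).2, ← inv_pow, norm_pow]
      rw [e]
      exact summable_geometric_of_lt_one (norm_nonneg _) hμ1
    · intro t ht2
      rw [if_neg (hout t ht2), norm_zero]
  · have e : ∑' t : ℕ, (if (rat a b)^[t] (x0 : OnePoint ℂ) = (x0 : OnePoint ℂ) then (tD a b t x0)⁻¹ else 0) =
        ∑' j : ℕ, μ⁻¹ ^ j := by
      rw [← hinj.tsum_eq]
      · refine tsum_congr fun j => ?_
        rw [if_pos (hj j).1, (hj j).2, ← inv_pow]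
      · intro t ht2
        by_contra hc
        exact ht2 (if_neg (hout t hc))
    rw [e, tsum_geometric_of_norm_lt_one hμ1]
    refine inv_ne_zero (sub_ne_zero.2 fun h1 => ?_)
    rw [← h1, norm_one] at hμ1
    exact lt_irrefl _ hμ1

end Pool.Agent.H66.NS
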