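import Pool.Agent.H66.NS.Lac
import Pool.Agent.H66.NS.Prl

/-!
# THEOREM NC, Julia set = sphere: the sequence of conical times and record times

`sel`: conical times `n j` with `g^(n j) v → y` and record times `s j < n j`, which are in `closedBall 0 L0` by minimality (near infinity `g` contracts), so converge to `x0` after a subsequence.
`ns`: if `n j - s j = q` for infinitely many `j` then `(rat a b)^[q] x0 = y` is finite, so `tD q` is continuous at `x0` and `Dk (n j) = Dk (s j) ‖tD q (P (s j))‖` is bounded along these `j`: against `din`.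
-/

set_option autoImplicit false

open Filter Topology Polynomial Metric Set MeasureTheory

namespace Pool.Agent.H66.NS

open Pool.Agent.H44.Fatou (rat)
open Pool.Agent.H80.AJ (Br KK)
open Pool.Agent.H61.TT Pool.Agent.H57.CP Pool.Agent.H3.NC Pool.Agent.H78.NS

variable {d : ℕ} {a b : Polynomial ℂ} {L0 θ : ℝ}

theorem Dk0 (v : ℂ) : Dk a b v 0 = 1 := by
  simp [Dk, tD]

/-- the derivatives at the conical times tend to infinity -/
theorem din (h : SP d a b L0 θ) {v : ℂ} {δ : ℝ} (hδ : 0 < δ) (M : ℝ) :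
    ∃ N : ℕ, ∀ n : ℕ, N ≤ n → ∀ G : ℂ → ℂ, Cal a b v δ n G → M < Dk a b v n := by
  set M' : ℝ := max M 1 with hM'
  have hM1 : 1 ≤ M' := le_max_right _ _
  have hM0 : 0 < M' := by linarith
  obtain ⟨N, hN⟩ := h.ni v (δ / (16 * M')) (by positivity)
  refine ⟨N + 1, fun n hn G hG => ?_⟩
  by_contra hcon
  push Not at hcon
  obtain ⟨-, -, hDn, -, -⟩ := brn h hδ hG (Nat.zero_le n)
  have hDM : Dk a b v n ≤ M' := hcon.trans (le_max_left _ _)
  have hk := kbe2 h hδ hG (Nat.zero_le n)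
  rw [Dk0] at hk
  apply hN n (by omega)
  have hsub : ∀ z ∈ ball v (δ / (16 * M')), ∃ u ∈ ball ((gg a b)^[n] v) δ, G u = z := by
    intro z hz
    have h1 : z ∈ ball ((gg a b)^[0] v) (δ * (1 / Dk a b v n) / 16) := by
      rw [mem_ball] at hz ⊢
      refine lt_of_lt_of_le hz ?_
      rw [mul_one_div, div_div, mul_comm (Dk a b v n) 16]
      gcongr
    obtain ⟨u, hu, hu2⟩ := hk h1
    exact ⟨u, hu, hu2⟩
  intro z hz z' hz' heq
  obtain ⟨u, hu, rfl⟩ := hsub z hz
  obtain ⟨u', hu', rfl⟩ := hsub z' hz'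
  have h1 := hG.inv u hu
  have h2 := hG.inv u' hu'
  have h3 : (u : OnePoint ℂ) = (u' : OnePoint ℂ) := by
    rw [← h1, ← h2]
    exact heq
  rw [OnePoint.coe_injective h3]

theorem Dk_add {v : ℂ} (k q : ℕ) :
    Dk a b v (k + q) = Dk a b v k * ‖tD a b q ((gg a b)^[k] v)‖ := by
  unfold Dk
  rw [tD_add, norm_mul]

/-- the selected sequence -/
theorem sel (h : SP d a b L0 θ) {c y : ℂ} {δ : ℝ} (hc : CD a b c y δ) :
    ∃ (x0 : ℂ) (n s : ℕ → ℕ) (G : ℕ → ℂ → ℂ), SQS a b (gg a b c) y x0 δ n s G := by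
  set v : ℂ := gg a b c with hv
  have hδ := hc.hδ
  -- conical times converging to `y`
  have hsel : ∀ (N : ℕ) (j : ℕ), ∃ n : ℕ, N ≤ n ∧ 1 ≤ n ∧ 1 ≤ Dk a b v n ∧
      ‖(gg a b)^[n] v - y‖ < 1 / ((j:ℝ) + 1) ∧ ∃ G : ℂ → ℂ, Cal a b v δ n G := by
    intro N j
    obtain ⟨N1, hN1⟩ := din h hδ (v := v) 1
    obtain ⟨n, hn, hny, G, hG⟩ := hc.con (max (max N 1) N1) (1 / ((j:ℝ) + 1)) (by positivity)
    have h1 : max N 1 ≤ n := (le_max_left _ _).trans hn
    exact ⟨n, (le_max_left _ _).trans h1, (le_max_right _ _).trans h1,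
      (hN1 n ((le_max_right _ _).trans hn) G hG).le, hny, G, hG⟩
  choose F hF1 hF2 hF3 hF4 hF5 using hsel
  set φ : ℕ → ℕ := fun j => Nat.rec (F 0 0) (fun j m => F (m + 1) (j + 1)) j with hφ
  have hφs : ∀ j, φ (j + 1) = F (φ j + 1) (j + 1) := fun j => rfl
  have hφm : StrictMono φ := strictMono_nat_of_lt_succ fun j => by
    rw [hφs]
    exact hF1 _ _
  have hφ1 : ∀ j, 1 ≤ φ j ∧ 1 ≤ Dk a b v (φ j) ∧ ‖(gg a b)^[φ j] v - y‖ < 1 / ((j:ℝ) + 1) ∧
      ∃ G : ℂ → ℂ, Cal a b v δ (φ j) G := by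
    intro j
    cases j with
    | zero => exact ⟨hF2 _ _, hF3 _ _, hF4 _ _, hF5 _ _⟩
    | succ j => exact ⟨hF2 _ _, hF3 _ _, hF4 _ _, hF5 _ _⟩
  choose hp1 hp2 hp3 G0 hG0 using hφ1
  have hyl0 : Tendsto (fun j => (gg a b)^[φ j] v) atTop (𝓝 y) := by
    rw [tendsto_iff_norm_sub_tendsto_zero]
    exact squeeze_zero (fun k => norm_nonneg _) (fun k => (hp3 k).le) tendsto_one_div_add_atTop_nhds_zero_nat
  have hmin : ∀ j, ∃ s ∈ Finset.range (φ j), ∀ k ∈ Finset.range (φ j), Dk a b v s ≤ Dk a b v k := fun j =>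
    Finset.exists_min_image _ _ ⟨0, Finset.mem_range.2 (hp1 j)⟩
  choose s1 hs1 hs2 using hmin
  have hpos0 : ∀ j k, k ≤ φ j → 0 < Dk a b v k := fun j k hk => (brn h hδ (hG0 j) hk).2.2.2.1
  -- the record times are not near infinity
  have hsb : ∀ j, (gg a b)^[s1 j] v ∈ closedBall (0:ℂ) L0 := by
    intro j
    rw [mem_closedBall_zero_iff]
    by_contra hcon
    push Not at hcon
    have h1 := (h.con _ hcon.le).2
    have hsj : s1 j < φ j := Finset.mem_range.1 (hs1 j)
    have h2 : Dk a b v (s1 j + 1) = Dk a b v (s1 j) * ‖dg a b ((gg a b)^[s1 j] v)‖ := by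
      rw [Dk_add]
      simp [tD]
    have h3 := hpos0 j (s1 j) hsj.le
    have h4 : Dk a b v (s1 j + 1) < Dk a b v (s1 j) := by
      rw [h2]
      have := h.hθ
      nlinarith
    rcases Nat.lt_or_ge (s1 j + 1) (φ j) with h5 | h5
    · have h6 := hs2 j (s1 j + 1) (Finset.mem_range.2 h5)
      linarith
    · have h6 : s1 j + 1 = φ j := by omega
      rw [h6] at h4
      have h7 := hs2 j 0 (Finset.mem_range.2 (hp1 j))
      rw [Dk0] at h7
      have h8 := hp2 j
      linarith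
  obtain ⟨x0, hx0, χ, hχ, hχ2⟩ := (isCompact_closedBall (0:ℂ) L0).tendsto_subseq hsb
  set n : ℕ → ℕ := fun j => φ (χ j) with hn
  set s : ℕ → ℕ := fun j => s1 (χ j) with hs
  set G : ℕ → ℂ → ℂ := fun j => G0 (χ j) with hG
  have hnm : StrictMono n := hφm.comp hχ
  have hGC : ∀ j, Cal a b v δ (n j) (G j) := fun j => hG0 _
  have hlt : ∀ j, s j < n j := fun j => Finset.mem_range.1 (hs1 (χ j))
  have hmn : ∀ j k, k < n j → Dk a b v (s j) ≤ Dk a b v k := fun j k hk => hs2 (χ j) k (Finset.mem_range.2 hk)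
  have hpos : ∀ j k, k ≤ n j → 0 < Dk a b v k := fun j k hk => hpos0 (χ j) k hk
  have hyl : Tendsto (fun j => (gg a b)^[n j] v) atTop (𝓝 y) := hyl0.comp hχ.tendsto_atTop
  have hs1' : ∀ j, Dk a b v (s j) ≤ 1 := by
    intro j
    rw [← Dk0 (a := a) (b := b) v]
    exact hmn j 0 (lt_of_le_of_lt (Nat.zero_le _) (hlt j))
  have hinfD : Tendsto (fun j => Dk a b v (n j)) atTop atTop := by
    rw [Filter.tendsto_atTop]
    intro M
    obtain ⟨N, hN⟩ := din h hδ (v := v) M
    filter_upwards [hnm.tendsto_atTop.eventually_ge_atTop N] with j hj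
    exact (hN (n j) hj (G j) (hGC j)).le
  have hr0 : Tendsto (fun j => Dk a b v (s j) / Dk a b v (n j)) atTop (𝓝 0) := by
    refine squeeze_zero (g := fun j => (Dk a b v (n j))⁻¹) (fun j => ?_) (fun j => ?_) hinfD.inv_tendsto_atTop
    · have h1 := hpos j (s j) (hlt j).le
      have h2 := hpos j (n j) le_rfl
      positivity
    · have h2 := hpos j (n j) le_rfl
      have h3 := hs1' j
      rw [inv_eq_one_div]
      gcongr
  refine ⟨x0, n, s, G, hδ, ?_, hnm, hGC, hyl⟩
  refine ⟨by positivity, hlt, hpos, hmn, hr0, ?_, hχ2, ?_⟩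
  · -- `n j - s j → ∞`
    rw [Filter.tendsto_atTop]
    intro m
    have hq : ∀ q : ℕ, ∀ᶠ j in atTop, n j - s j ≠ q := by
      intro q
      by_contra hcon
      have hfr : ∃ᶠ j in atTop, n j - s j = q := by
        rw [Filter.not_eventually] at hcon
        exact hcon.mono fun j hj => not_not.1 hj
      obtain ⟨ψ, hψ, hψ2⟩ := extraction_of_frequently_atTop hfr
      have e1 : ∀ j, (gg a b)^[n (ψ j)] v = (gg a b)^[q] ((gg a b)^[s (ψ j)] v) := by
        intro j
        rw [← Function.iterate_add_apply]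
        congr 1
        have := hlt (ψ j)
        have := hψ2 j
        omega
      have hx : Tendsto (fun j => (gg a b)^[s (ψ j)] v) atTop (𝓝 x0) := hχ2.comp hψ.tendsto_atTop
      have e2 : Tendsto (fun j => (rat a b)^[q] ((gg a b)^[s (ψ j)] v : OnePoint ℂ)) atTop
          (𝓝 ((rat a b)^[q] (x0 : OnePoint ℂ))) :=
        ((rat_it_cont h q).tendsto _).comp ((OnePoint.continuous_coe.tendsto x0).comp hx)
      have e3 : Tendsto (fun j => (rat a b)^[q] ((gg a b)^[s (ψ j)] v : OnePoint ℂ)) atTop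
          (𝓝 (y : OnePoint ℂ)) := by
        have : (fun j => (rat a b)^[q] ((gg a b)^[s (ψ j)] v : OnePoint ℂ)) =
            fun j => (((gg a b)^[n (ψ j)] v : ℂ) : OnePoint ℂ) := by
          funext j
          rw [e1]
          refine orb_fin fun i _ => ?_
          rw [← Function.iterate_add_apply]
          exact hc.ob _
        rw [this]
        exact (OnePoint.continuous_coe.tendsto y).comp (hyl.comp hψ.tendsto_atTop)
      have e4 : (rat a b)^[q] (x0 : OnePoint ℂ) = (y : OnePoint ℂ) := tendsto_nhds_unique e2 e3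
      have e5 : Tendsto (fun j => ‖tD a b q ((gg a b)^[s (ψ j)] v)‖) atTop (𝓝 ‖tD a b q x0‖) :=
        ((cont_it h e4).2.tendsto.comp hx).norm
      have e6 : ∀ᶠ j in atTop, ‖tD a b q ((gg a b)^[s (ψ j)] v)‖ < ‖tD a b q x0‖ + 1 :=
        e5.eventually (gt_mem_nhds (by linarith))
      have e7 : ∀ᶠ j in atTop, ‖tD a b q x0‖ + 1 < Dk a b v (n (ψ j)) :=
        (hinfD.comp hψ.tendsto_atTop).eventually_gt_atTop _
      obtain ⟨j, hj6, hj7⟩ := (e6.and e7).exists
      have e8 : Dk a b v (n (ψ j)) = Dk a b v (s (ψ j)) * ‖tD a b q ((gg a b)^[s (ψ j)] v)‖ := by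
        rw [← Dk_add]
        congr 1
        have := hlt (ψ j)
        have := hψ2 j
        omega
      have e9 := hs1' (ψ j)
      have e10 := hpos (ψ j) (s (ψ j)) (hlt (ψ j)).le
      rw [e8] at hj7
      nlinarith [norm_nonneg (tD a b q ((gg a b)^[s (ψ j)] v))]
    have hall : ∀ᶠ j in atTop, ∀ q ∈ Finset.range m, n j - s j ≠ q := by
      rw [Filter.eventually_all_finset]
      exact fun q _ => hq q
    filter_upwards [hall] with j hj
    by_contra hcon
    exact hj (n j - s j) (Finset.mem_range.2 (by omega)) rfl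
  · intro K hK
    obtain ⟨N, ρ, hρ, hlac⟩ := lac h hδ (v := v) (y := y) hK
    refine ⟨N, ?_⟩
    have hev : ∀ᶠ j in atTop, (gg a b)^[n j] v ∈ ball y ρ := hyl.eventually (ball_mem_nhds y hρ)
    filter_upwards [hev] with j hj k l hkl hln hNl hze
    have hj' : ‖(gg a b)^[n j] v - y‖ < ρ := by simpa [dist_eq_norm] using hj
    refine hlac (n j) (G j) (hGC j) hj' k l hkl hln hNl ?_
    have h1 := hpos j (s j) (hlt j).le
    have h2 := hpos j (n j) le_rfl
    have h3 : 0 < Dk a b v (s j) / Dk a b v (n j) := by positivity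
    have h4 : ze a b v (n j) (s j) k - ze a b v (n j) (s j) l =
        ((gg a b)^[k] v - (gg a b)^[l] v) / ((Dk a b v (s j) / Dk a b v (n j) : ℝ) : ℂ) := by
      unfold ze
      rw [← sub_div]
      congr 1
      ring
    rw [h4, norm_div, Complex.norm_real, Real.norm_of_nonneg h3.le, div_le_iff₀ h3] at hze
    refine hze.trans ?_
    have h5 := hmn j k (by omega)
    gcongr

end Pool.Agent.H66.NS
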