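import Pool.Agent.H78.NS.Defs

/-!
# THEOREM NC, Julia set = sphere: the branches along a conical time

Copy of H3/NC/BRN with `SP` in the place of `NS`: infinity is fixed, so every orbit which ends in the plane stays in the plane.
-/

set_option autoImplicit false

open Filter Topology Polynomial Metric Set MeasureTheory

namespace Pool.Agent.H66.NS

open Pool.Agent.H44.Fatou (rat)
open Pool.Agent.H80.AJ (Br KK)
open Pool.Agent.H61.TT Pool.Agent.H57.CP Pool.Agent.H3.NC Pool.Agent.H78.NS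

variable {d : ℕ} {a b : Polynomial ℂ} {L0 θ : ℝ}

theorem inf_it (h : SP d a b L0 θ) (n : ℕ) : (rat a b)^[n] OnePoint.infty = OnePoint.infty := by
  induction n with
  | zero => rfl
  | succ n ih => rw [Function.iterate_succ_apply', ih, h.inf]

/-- an orbit which ends in the plane stays in the plane -/
theorem bdo (h : SP d a b L0 θ) {n : ℕ} {u z : ℂ}
    (hz : (rat a b)^[n] (z : OnePoint ℂ) = (u : OnePoint ℂ)) :
    (gg a b)^[n] z = u ∧ (∀ i ≤ n, (rat a b)^[i] (z : OnePoint ℂ) = ((gg a b)^[i] z : ℂ)) ∧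
      ∀ i < n, b.eval ((gg a b)^[i] z) ≠ 0 := by
  have key : ∀ i ≤ n, (rat a b)^[i] (z : OnePoint ℂ) = ((gg a b)^[i] z : ℂ) ∧
      ∀ j < i, b.eval ((gg a b)^[j] z) ≠ 0 := by
    intro i
    induction i with
    | zero => intro _; exact ⟨rfl, fun j hj => absurd hj (by omega)⟩
    | succ i ih =>
      intro hi
      obtain ⟨h1, h2⟩ := ih (by omega)
      have hb : b.eval ((gg a b)^[i] z) ≠ 0 := by
        intro h0
        have h3 : (rat a b)^[i + 1] (z : OnePoint ℂ) = OnePoint.infty := by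
          rw [Function.iterate_succ_apply', h1, Pool.Agent.H44.Fatou.rat_coe, h0]
          unfold Pool.Agent.H44.Fatou.pt
          rw [if_pos rfl]
        have h4 : (rat a b)^[n] (z : OnePoint ℂ) = OnePoint.infty := by
          have : n = (n - (i + 1)) + (i + 1) := by omega
          rw [this, Function.iterate_add_apply, h3, inf_it h]
        rw [hz] at h4
        exact OnePoint.coe_ne_infty _ h4
      refine ⟨?_, ?_⟩
      · rw [Function.iterate_succ_apply', h1, Function.iterate_succ_apply',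
          Pool.Agent.H44.Fatou.rat_coe_of_ne hb]
        rfl
      · intro j hj
        rcases Nat.lt_succ_iff_lt_or_eq.1 hj with h3 | rfl
        · exact h2 j h3
        · exact hb
  refine ⟨?_, fun i hi => (key i hi).1, (key n le_rfl).2⟩
  have h1 := (key n le_rfl).1
  rw [hz] at h1
  exact (OnePoint.coe_injective h1).symm

/-- an orbit without poles -/
theorem orb_fin {n : ℕ} {z : ℂ} (hb : ∀ i < n, b.eval ((gg a b)^[i] z) ≠ 0) :
    (rat a b)^[n] (z : OnePoint ℂ) = ((gg a b)^[n] z : ℂ) := by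
  induction n with
  | zero => rfl
  | succ n ih =>
    rw [Function.iterate_succ_apply', ih (fun i hi => hb i (by omega)), Function.iterate_succ_apply',
      Pool.Agent.H44.Fatou.rat_coe_of_ne (hb n (by omega))]
    rfl

theorem brn (h : SP d a b L0 θ) {v : ℂ} {δ : ℝ} (hδ : 0 < δ) {n : ℕ} {G : ℂ → ℂ}
    (hG : Cal a b v δ n G) {k : ℕ} (hk : k ≤ n) :
    Br (rat a b) (n - k) ((gg a b)^[n] v) δ ((gg a b)^[k] v) ((gg a b)^[k] ∘ G) ∧
      InjOn ((gg a b)^[k] ∘ G) (ball ((gg a b)^[n] v) δ) ∧ 0 < Dk a b v n ∧ 0 < Dk a b v k ∧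
      ‖deriv ((gg a b)^[k] ∘ G) ((gg a b)^[n] v)‖ = Dk a b v k / Dk a b v n := by
  have hb : ∀ u ∈ ball ((gg a b)^[n] v) δ, (gg a b)^[n] (G u) = u ∧
      (∀ i ≤ n, (rat a b)^[i] (G u : OnePoint ℂ) = ((gg a b)^[i] (G u) : ℂ)) ∧
      ∀ i < n, b.eval ((gg a b)^[i] (G u)) ≠ 0 :=
    fun u hu => bdo h (hG.inv u hu)
  have hd : ∀ j ≤ n, ∀ u ∈ ball ((gg a b)^[n] v) δ,
      HasDerivAt ((gg a b)^[j] ∘ G) (tD a b j (G u) * deriv G u) u := by
    intro j hj u hu
    have h4 : HasDerivAt G (deriv G u) u := (hG.diff.differentiableAt (isOpen_ball.mem_nhds hu)).hasDerivAt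
    exact (bra_it (fun i hi => (hb u hu).2.2 i (by omega))).hasDerivAt.comp u h4
  have hBr : Br (rat a b) (n - k) ((gg a b)^[n] v) δ ((gg a b)^[k] v) ((gg a b)^[k] ∘ G) := by
    refine ⟨fun u hu => (hd k hk u hu).differentiableAt.differentiableWithinAt, ?_, fun u hu => ?_⟩
    · exact congrArg _ hG.val
    · change (rat a b)^[n - k] (((gg a b)^[k] (G u) : ℂ) : OnePoint ℂ) = (u : OnePoint ℂ)
      rw [← (hb u hu).2.1 k hk, ← Function.iterate_add_apply, Nat.sub_add_cancel hk]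
      exact hG.inv u hu
  have hc : (gg a b)^[n] v ∈ ball ((gg a b)^[n] v) δ := mem_ball_self hδ
  have h1 : tD a b n v * deriv G ((gg a b)^[n] v) = 1 := by
    have h5 := hd n le_rfl _ hc
    have h6 : (gg a b)^[n] ∘ G =ᶠ[𝓝 ((gg a b)^[n] v)] id := by
      filter_upwards [isOpen_ball.mem_nhds hc] with w hw
      exact (hb w hw).1
    have h7 : HasDerivAt ((gg a b)^[n] ∘ G) 1 ((gg a b)^[n] v) := (hasDerivAt_id _).congr_of_eventuallyEq h6
    have h8 := h5.unique h7
    rwa [hG.val] at h8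
  have hn0 : tD a b n v ≠ 0 := left_ne_zero_of_mul_eq_one h1
  have hk0 : tD a b k v ≠ 0 := by
    intro h0
    apply hn0
    rw [← Nat.add_sub_cancel' hk, tD_add, h0, zero_mul]
  have hDn : 0 < Dk a b v n := norm_pos_iff.2 hn0
  have hDk : 0 < Dk a b v k := norm_pos_iff.2 hk0
  refine ⟨hBr, ?_, hDn, hDk, ?_⟩
  · intro u hu u' hu' he
    have h2 := hBr.inv u hu
    rw [he, hBr.inv u' hu'] at h2
    exact (OnePoint.coe_injective h2).symm
  · rw [(hd k hk _ hc).deriv, hG.val, norm_mul]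
    have h9 : ‖tD a b n v‖ * ‖deriv G ((gg a b)^[n] v)‖ = 1 := by rw [← norm_mul, h1, norm_one]
    unfold Dk
    rw [eq_div_iff (norm_ne_zero_iff.2 hn0), mul_assoc, mul_comm ‖deriv G _‖, h9, mul_one]

end Pool.Agent.H66.NS
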