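import Pool.Agent.H66.NS.Brn

/-!
# THEOREM NC, Julia set = sphere: distortion of the branches (copy of H3/NC/KBE)
-/

set_option autoImplicit false

open Filter Topology Polynomial Metric Set MeasureTheory

namespace Pool.Agent.H66.NS

open Pool.Agent.H44.Fatou (rat)
open Pool.Agent.H80.AJ (Br KK)
open Pool.Agent.H61.TT Pool.Agent.H57.CP Pool.Agent.H3.NC Pool.Agent.H78.NS

variable {d : ℕ} {a b : Polynomial ℂ} {L0 θ : ℝ}

theorem kbe1 (h : SP d a b L0 θ) {v : ℂ} {δ : ℝ} (hδ : 0 < δ) {n : ℕ} {G : ℂ → ℂ}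
    (hG : Cal a b v δ n G) {k : ℕ} (hk : k ≤ n) {u : ℂ} (hu : u ∈ closedBall ((gg a b)^[n] v) (δ / 2)) :
    ‖(gg a b)^[k] (G u) - (gg a b)^[k] v‖ ≤ KK * (Dk a b v k / Dk a b v n) * ‖u - (gg a b)^[n] v‖ := by
  obtain ⟨hB, hinj, hDn, hDk, hder⟩ := brn h hδ hG hk
  have hc : (gg a b)^[n] v ∈ closedBall ((gg a b)^[n] v) (δ / 2) := mem_closedBall_self (by positivity)
  have h1 := Pool.Agent.H80.AJ.distort_lip hδ hB.diff hinj hu hc hc
  rw [hB.val, hder] at h1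
  exact h1

theorem kbe2 (h : SP d a b L0 θ) {v : ℂ} {δ : ℝ} (hδ : 0 < δ) {n : ℕ} {G : ℂ → ℂ}
    (hG : Cal a b v δ n G) {k : ℕ} (hk : k ≤ n) :
    ball ((gg a b)^[k] v) (δ * (Dk a b v k / Dk a b v n) / 16) ⊆ ((gg a b)^[k] ∘ G) '' ball ((gg a b)^[n] v) δ := by
  obtain ⟨hB, hinj, hDn, hDk, hder⟩ := brn h hδ hG hk
  have h1 := Pool.Agent.H80.AJ.univ_cover hδ hB.diff hinj
  rw [hB.val, hder] at h1
  exact h1

theorem kbe3 (h : SP d a b L0 θ) {v : ℂ} {δ : ℝ} (hδ : 0 < δ) {n : ℕ} {G : ℂ → ℂ}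
    (hG : Cal a b v δ n G) {k : ℕ} (hk : k ≤ n) {w : ℂ} (hw : w ∈ closedBall ((gg a b)^[n] v) (δ / 4)) {ρ : ℝ}
    (hρ : 0 < ρ) (hρ4 : ρ ≤ δ / 4) :
    ball ((gg a b)^[k] (G w)) (ρ * (Dk a b v k / Dk a b v n) / (16 * KK)) ⊆ ((gg a b)^[k] ∘ G) '' ball w ρ := by
  obtain ⟨hB, hinj, hDn, hDk, hder⟩ := brn h hδ hG hk
  have hsub : ball w ρ ⊆ ball ((gg a b)^[n] v) δ := by
    intro x hx
    rw [mem_ball] at hx ⊢
    rw [mem_closedBall] at hw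
    have := dist_triangle x w ((gg a b)^[n] v)
    linarith
  have h1 := Pool.Agent.H80.AJ.univ_cover hρ (hB.diff.mono hsub) (hinj.mono hsub)
  have hc : (gg a b)^[n] v ∈ closedBall ((gg a b)^[n] v) (δ / 2) := mem_closedBall_self (by positivity)
  have hw2 : w ∈ closedBall ((gg a b)^[n] v) (δ / 2) := closedBall_subset_closedBall (by linarith) hw
  have h2 := Pool.Agent.H80.AJ.distort hδ hB.diff hinj hc hw2
  rw [hder] at h2
  refine Subset.trans (ball_subset_ball ?_) h1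
  have hK := Pool.Agent.H80.AJ.KK_pos
  rw [div_le_div_iff₀ (by positivity) (by norm_num)]
  have h3 : ρ * (Dk a b v k / Dk a b v n) ≤ ρ * (KK * ‖deriv ((gg a b)^[k] ∘ G) w‖) :=
    mul_le_mul_of_nonneg_left h2 hρ.le
  calc ρ * (Dk a b v k / Dk a b v n) * 16 ≤ ρ * (KK * ‖deriv ((gg a b)^[k] ∘ G) w‖) * 16 :=
        mul_le_mul_of_nonneg_right h3 (by norm_num)
    _ = ρ * ‖deriv ((gg a b)^[k] ∘ G) w‖ * (16 * KK) := by ring

end Pool.Agent.H66.NS
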