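import Pool.Agent.H66.NS.Kbe

/-!
# THEOREM NC, Julia set = sphere: lacunarity (copy of H3/NC/LAC)
-/

set_option autoImplicit false

open Filter Topology Polynomial Metric Set MeasureTheory

namespace Pool.Agent.H66.NS

open Pool.Agent.H44.Fatou (rat)
open Pool.Agent.H80.AJ (Br KK)
open Pool.Agent.H61.TT Pool.Agent.H57.CP Pool.Agent.H3.NC Pool.Agent.H78.NS

variable {d : ℕ} {a b : Polynomial ℂ} {L0 θ : ℝ}

theorem lac (h : SP d a b L0 θ) {v : ℂ} {δ : ℝ} (hδ : 0 < δ) {y : ℂ}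
    {K : ℝ} (hK : 1 ≤ K) : ∃ (N : ℕ) (ρ : ℝ), 0 < ρ ∧ ∀ (n : ℕ) (G : ℂ → ℂ), Cal a b v δ n G →
      ‖(gg a b)^[n] v - y‖ < ρ → ∀ k l : ℕ, k < l → l < n → N < l - k →
        ‖(gg a b)^[k] v - (gg a b)^[l] v‖ ≤ δ / 32 * (Dk a b v k / Dk a b v n) → K * Dk a b v k ≤ Dk a b v l := by
  have hKK : 0 < KK := Pool.Agent.H80.AJ.KK_pos
  have hK0 : 0 < K := by linarith
  set ρ : ℝ := min (δ / 2) (δ / (32 * KK * K)) with hρ
  have hρ0 : 0 < ρ := lt_min (by positivity) (by positivity)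
  have hρ1 : ρ ≤ δ / 2 := min_le_left _ _
  have hρ2 : ρ ≤ δ / (32 * KK * K) := min_le_right _ _
  have hρ3 : KK * K * ρ ≤ δ / 32 := by
    rw [le_div_iff₀ (by positivity)] at hρ2
    linarith
  obtain ⟨N, hN⟩ := h.ni y (ρ / 2) (by positivity)
  refine ⟨N, ρ / 2, by positivity, fun n G hG hny k l hkl hln hNl hkle => ?_⟩
  by_contra hcon
  push Not at hcon
  obtain ⟨hbk, -, hDn, hDk, -⟩ := brn h hδ hG (by omega : k ≤ n)
  obtain ⟨hbl, -, -, hDl, -⟩ := brn h hδ hG (by omega : l ≤ n)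
  apply hN (l - k) hNl
  have key : ∀ u ∈ ball y (ρ / 2), u ∈ ball ((gg a b)^[n] v) δ ∧
      ∃ q ∈ ball ((gg a b)^[n] v) δ, (gg a b)^[k] (G q) = (gg a b)^[l] (G u) := by
    intro u hu
    have hu1 : ‖u - (gg a b)^[n] v‖ < ρ := by
      have h1 : ‖u - y‖ < ρ / 2 := by simpa [dist_eq_norm] using hu
      have h2 : ‖u - (gg a b)^[n] v‖ ≤ ‖u - y‖ + ‖y - (gg a b)^[n] v‖ := norm_sub_le_norm_sub_add_norm_sub _ _ _
      rw [norm_sub_rev y] at h2
      linarith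
    have hu2 : u ∈ ball ((gg a b)^[n] v) δ := by
      rw [mem_ball, dist_eq_norm]
      linarith
    refine ⟨hu2, ?_⟩
    have hu3 : u ∈ closedBall ((gg a b)^[n] v) (δ / 2) := by
      rw [mem_closedBall, dist_eq_norm]
      linarith
    have h1 := kbe1 h hδ hG (by omega : l ≤ n) hu3
    have hrl : Dk a b v l / Dk a b v n ≤ K * (Dk a b v k / Dk a b v n) := by
      rw [← mul_div_assoc]
      gcongr
    have hrl0 : 0 < Dk a b v l / Dk a b v n := by positivity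
    have hrk0 : 0 < Dk a b v k / Dk a b v n := by positivity
    have h2 : KK * (Dk a b v l / Dk a b v n) * ‖u - (gg a b)^[n] v‖ < KK * (Dk a b v l / Dk a b v n) * ρ := by
      gcongr
    have h3 : KK * (Dk a b v l / Dk a b v n) * ρ ≤ δ / 32 * (Dk a b v k / Dk a b v n) := by
      calc KK * (Dk a b v l / Dk a b v n) * ρ ≤ KK * (K * (Dk a b v k / Dk a b v n)) * ρ := by gcongr
        _ = (KK * K * ρ) * (Dk a b v k / Dk a b v n) := by ring
        _ ≤ δ / 32 * (Dk a b v k / Dk a b v n) := by gcongr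
    have h4 : (gg a b)^[l] (G u) ∈ ball ((gg a b)^[k] v) (δ * (Dk a b v k / Dk a b v n) / 16) := by
      rw [mem_ball, dist_eq_norm]
      have h5 : ‖(gg a b)^[l] (G u) - (gg a b)^[k] v‖ ≤ ‖(gg a b)^[l] (G u) - (gg a b)^[l] v‖ +
          ‖(gg a b)^[l] v - (gg a b)^[k] v‖ := norm_sub_le_norm_sub_add_norm_sub _ _ _
      rw [norm_sub_rev ((gg a b)^[l] v)] at h5
      calc ‖(gg a b)^[l] (G u) - (gg a b)^[k] v‖ ≤ ‖(gg a b)^[l] (G u) - (gg a b)^[l] v‖ +
          ‖(gg a b)^[k] v - (gg a b)^[l] v‖ := h5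
        _ < δ / 32 * (Dk a b v k / Dk a b v n) + δ / 32 * (Dk a b v k / Dk a b v n) := by linarith
        _ = δ * (Dk a b v k / Dk a b v n) / 16 := by ring
    obtain ⟨q, hq, hq2⟩ := kbe2 h hδ hG (by omega : k ≤ n) h4
    exact ⟨q, hq, hq2⟩
  intro u hu u' hu' heq
  obtain ⟨hub, q, hq, hqe⟩ := key u hu
  obtain ⟨hub', q', hq', hqe'⟩ := key u' hu'
  have hval : ∀ w p : ℂ, w ∈ ball ((gg a b)^[n] v) δ → p ∈ ball ((gg a b)^[n] v) δ →
      (gg a b)^[k] (G p) = (gg a b)^[l] (G w) → (p : OnePoint ℂ) = (rat a b)^[l - k] (w : OnePoint ℂ) := by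
    intro w p hw hp he
    have h1 := hbk.inv p hp
    have h2 := hbl.inv w hw
    simp only [Function.comp_apply] at h1 h2
    rw [← h1, he, show n - k = (l - k) + (n - l) by omega, Function.iterate_add_apply, h2]
  have e1 := hval u q hub hq hqe
  have e2 := hval u' q' hub' hq' hqe'
  have e3 : (q : OnePoint ℂ) = (q' : OnePoint ℂ) := by
    rw [e1, e2]
    exact heq
  have e4 : q = q' := OnePoint.coe_injective e3
  have e5 : (gg a b)^[l] (G u) = (gg a b)^[l] (G u') := by rw [← hqe, ← hqe', e4]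
  have f1 := hbl.inv u hub
  have f2 := hbl.inv u' hub'
  simp only [Function.comp_apply] at f1 f2
  rw [e5, f2] at f1
  exact (OnePoint.coe_injective f1).symm

end Pool.Agent.H66.NS
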